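import Pool.Agent.Helper51_SGE.Tool

/-!
# Squad SGE, row NTA: a new vertex above a contour edge
-/

open scoped BigOperators

noncomputable section

namespace Pool.Agent.SGE.H51

theorem nta : NtaStmt := by
  intro V _ a b P Q p q v E F h hv
  classical
  have hv' : ∀ x, ¬ E x v := fun x hx => hv x (h.sym _ _ hx)
  -- the fans of the old near-triangulation
  have hbd := h.bd
  have e1 : b :: ((P ++ p :: q :: Q) ++ [a]) = b :: (P ++ p :: q :: (Q ++ [a])) := by simp
  have hC : ∀ w ∈ P ++ p :: q :: Q, ∃ x y, Fan E F x w y := tri_mem a _ b hbd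
  rw [e1, tri_split, tri_left] at hbd
  obtain ⟨t1, fp, fq, t2⟩ := hbd
  have hvC : v ∉ P ++ p :: q :: Q := by
    intro hm
    obtain ⟨x, y, hf⟩ := hC v hm
    exact hv _ (fan_ends hf).1
  have hnd := h.nd
  have hpq : p ≠ q := by
    intro e
    rw [List.nodup_append] at hnd
    have := (List.nodup_cons.1 hnd.2.1).1
    exact this (by rw [e]; simp)
  have hvp : v ≠ p := fun e => hvC (by rw [e]; simp)
  have hvq : v ≠ q := fun e => hvC (by rw [e]; simp)
  have Epq : E p q := (fan_ends fp).2.1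
  have n1 : ∀ t, ¬ F p q t := (fan_ends fp).2.2
  have n2 : ∀ t, ¬ F q v t := fun t ht => hv' _ (h.fe _ _ _ ht)
  have n3 : ∀ t, ¬ F v p t := fun t ht => hv _ (h.fe _ _ _ ht)
  have Eo : ∀ w, w ≠ p → w ≠ q → w ≠ v → ∀ z, addE (addE E p v) q v w z ↔ E w z := by
    intro w h1 h2 h3 z
    unfold addE
    simp [h1, h2, h3]
  have Fo : ∀ w, w ≠ p → w ≠ q → w ≠ v → ∀ s z, addF F p q v w s z ↔ F w s z :=
    fun w h1 h2 h3 s z => addF_ne h1 h2 h3 s z
  have nP : ∀ w ∈ P, w ≠ p ∧ w ≠ q ∧ w ≠ v := by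
    intro w hw
    rw [List.nodup_append] at hnd
    refine ⟨fun e => ?_, fun e => ?_, fun e => ?_⟩
    · exact hnd.2.2 w hw p (by simp) e
    · exact hnd.2.2 w hw q (by simp) e
    · exact hvC (by rw [← e]; simp [hw])
  have nQ : ∀ w ∈ Q, w ≠ p ∧ w ≠ q ∧ w ≠ v := by
    intro w hw
    rw [List.nodup_append] at hnd
    have hn2 := List.nodup_cons.1 hnd.2.1
    have hn3 := List.nodup_cons.1 hn2.2
    refine ⟨fun e => ?_, fun e => ?_, fun e => ?_⟩
    · exact hn2.1 (by rw [← e]; simp [hw])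
    · exact hn3.1 (by rw [← e]; exact hw)
    · exact hvC (by rw [← e]; simp [hw])
  constructor
  · exact h.ab
  · -- nd
    have e : P ++ p :: v :: q :: Q = (P ++ [p]) ++ v :: (q :: Q) := by simp
    have e' : P ++ p :: q :: Q = (P ++ [p]) ++ q :: Q := by simp
    rw [e, List.perm_middle.nodup_iff, ← e']
    exact List.nodup_cons.2 ⟨hvC, h.nd⟩
  · have := h.hd
    cases P <;> simpa using this
  · have := h.ls
    have e : P ++ p :: v :: q :: Q = (P ++ [p, v]) ++ q :: Q := by simp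
    have e' : P ++ p :: q :: Q = (P ++ [p]) ++ q :: Q := by simp
    rw [e', List.getLast?_append] at this
    rw [e, List.getLast?_append]
    simpa [List.getLast?_cons] using this
  · -- sym
    rintro u w ((h1 | ⟨h1, h2⟩ | ⟨h1, h2⟩) | ⟨h1, h2⟩ | ⟨h1, h2⟩)
    · exact Or.inl (Or.inl (h.sym _ _ h1))
    · exact Or.inl (Or.inr (Or.inr ⟨h2, h1⟩))
    · exact Or.inl (Or.inr (Or.inl ⟨h2, h1⟩))
    · exact Or.inr (Or.inr ⟨h2, h1⟩)
    · exact Or.inr (Or.inl ⟨h2, h1⟩)
  · -- irr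
    rintro u ((h1 | ⟨h1, h2⟩ | ⟨h1, h2⟩) | ⟨h1, h2⟩ | ⟨h1, h2⟩)
    · exact h.irr _ h1
    · exact hvp (h2.symm.trans h1)
    · exact hvp (h1.symm.trans h2)
    · exact hvq (h2.symm.trans h1)
    · exact hvq (h1.symm.trans h2)
  · -- rot
    rintro u w t (h1 | ⟨h1, h2, h3⟩ | ⟨h1, h2, h3⟩ | ⟨h1, h2, h3⟩)
    · exact Or.inl (h.rot _ _ _ h1)
    · exact Or.inr (Or.inr (Or.inl ⟨h2, h3, h1⟩))
    · exact Or.inr (Or.inr (Or.inr ⟨h2, h3, h1⟩))
    · exact Or.inr (Or.inl ⟨h2, h3, h1⟩)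
  · -- fn
    rintro u w t t' (h1 | ⟨h1, h2, h3⟩ | ⟨h1, h2, h3⟩ | ⟨h1, h2, h3⟩)
      (g1 | ⟨g1, g2, g3⟩ | ⟨g1, g2, g3⟩ | ⟨g1, g2, g3⟩)
    · exact h.fn _ _ _ _ h1 g1
    · subst g1; subst g2; exact absurd h1 (n1 _)
    · subst g1; subst g2; exact absurd h1 (n2 _)
    · subst g1; subst g2; exact absurd h1 (n3 _)
    · subst h1; subst h2; exact absurd g1 (n1 _)
    · exact h3.trans g3.symm
    · exact absurd (h1.symm.trans g1) hpq
    · exact absurd (g1.symm.trans h1) hvp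
    · subst h1; subst h2; exact absurd g1 (n2 _)
    · exact absurd (g1.symm.trans h1) hpq
    · exact h3.trans g3.symm
    · exact absurd (g1.symm.trans h1) hvq
    · subst h1; subst h2; exact absurd g1 (n3 _)
    · exact absurd (h1.symm.trans g1) hvp
    · exact absurd (h1.symm.trans g1) hvq
    · exact h3.trans g3.symm
  · -- fe
    rintro u w t (h1 | ⟨h1, h2, h3⟩ | ⟨h1, h2, h3⟩ | ⟨h1, h2, h3⟩)
    · exact Or.inl (Or.inl (h.fe _ _ _ h1))
    · subst h1; subst h2; exact Or.inl (Or.inl Epq)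
    · exact Or.inr (Or.inl ⟨h1, h2⟩)
    · exact Or.inl (Or.inr (Or.inr ⟨h1, h2⟩))
  · -- bd
    have e2 : b :: ((P ++ p :: v :: q :: Q) ++ [a]) =
        b :: (P ++ p :: v :: q :: (Q ++ [a])) := by simp
    rw [e2, tri_split]
    have e3 : p :: v :: q :: (Q ++ [a]) = p :: v :: ((q :: Q) ++ [a]) := by simp
    have e4 : v :: ((q :: Q) ++ [a]) = v :: q :: (Q ++ [a]) := by simp
    rw [e3, tri_left, e4, tri_left]
    have hEf : E q (Q.headD a) := (fan_ends fq).2.1
    have hfv : Q.headD a ≠ v := fun e => hv' q (by rw [← e]; exact hEf)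
    refine ⟨tri_mono p P b ?_ t1, ?_, ?_, ?_, ?_⟩
    · intro x w y hw hf
      obtain ⟨w1, w2, w3⟩ := nP w hw
      exact fan_congr (Eo w w1 w2 w3) (Fo w w1 w2 w3) hf
    · -- the fan of p
      refine fan_snoc (fun s t hst => Or.inl hst) (Or.inr (Or.inl ⟨rfl, rfl, rfl⟩)) ?_ (hv' p) ?_ fp
      · intro z
        unfold addE
        simp [hvp.symm, hpq]
      · rintro z (h1 | ⟨h1, h2, h3⟩ | ⟨h1, h2, h3⟩ | ⟨h1, h2, h3⟩)
        · exact hv' _ (h.fe _ _ _ h1)
        · exact hvq h2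
        · exact hpq h1
        · exact hvp h1.symm
    · -- the fan of v
      refine ⟨[p, q], rfl, rfl, ?_, ?_, ?_, ?_⟩
      · simp only [List.isChain_cons_cons, List.isChain_singleton, and_true]
        exact Or.inr (Or.inr (Or.inr ⟨rfl, rfl, rfl⟩))
      · simp [hpq]
      · intro z
        unfold addE
        simp [hv, hvp, hvq]
      · rintro z (h1 | ⟨h1, h2, h3⟩ | ⟨h1, h2, h3⟩ | ⟨h1, h2, h3⟩)
        · exact hv _ (h.fe _ _ _ h1)
        · exact hvp h1
        · exact hvq h1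
        · exact hpq h2.symm
    · -- the fan of q
      refine fan_cons (fun s t hst => Or.inl hst)
        (Or.inr (Or.inr (Or.inl ⟨rfl, rfl, rfl⟩))) ?_ (hv' q) ?_ fq
      · intro z
        unfold addE
        simp [hvq.symm, hpq.symm]
      · rintro z (h1 | ⟨h1, h2, h3⟩ | ⟨h1, h2, h3⟩ | ⟨h1, h2, h3⟩)
        · exact (fan_ends fq).2.2 _ h1
        · exact hpq h1.symm
        · exact hfv h2
        · exact hvq h1.symm
    · refine tri_mono a Q q ?_ t2
      intro x w y hw hf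
      obtain ⟨w1, w2, w3⟩ := nQ w hw
      exact fan_congr (Eo w w1 w2 w3) (Fo w w1 w2 w3) hf
  · -- int
    intro z x hz hx
    have z1 : z ≠ p := fun e => hz (by rw [e]; simp)
    have z2 : z ≠ q := fun e => hz (by rw [e]; simp)
    have z3 : z ≠ v := fun e => hz (by rw [e]; simp)
    have hzC : z ∉ P ++ p :: q :: Q := by
      intro hm
      apply hz
      simp only [List.mem_append, List.mem_cons] at hm ⊢
      tauto
    exact cyc_congr (Eo z z1 z2 z3) (Fo z z1 z2 z3)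
      (h.int z x hzC ((Eo z z1 z2 z3 x).1 hx))
  · -- hom
    intro Z hs hE hr
    have e2 : ∀ c : ZMod 2, c + c = 0 := CharTwo.add_self_eq_zero
    have hz : Z v p = Z v q := by
      have h0 := hr v
      rw [Finset.sum_eq_add (a := p) (b := q) hpq ?_ (by simp) (by simp)] at h0
      · have : Z v p = Z v p + (Z v q + Z v q) := by rw [e2, add_zero]
        rw [this, ← add_assoc, h0, zero_add]
      · rintro c - ⟨c1, c2⟩
        by_contra hc
        rcases hE _ _ hc with (h1 | ⟨h1, h2⟩ | ⟨h1, h2⟩) | ⟨h1, h2⟩ | ⟨h1, h2⟩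
        · exact hv _ h1
        · exact hvp h1
        · exact c1 h2
        · exact hvq h1
        · exact c2 h2
    refine hom_add hpq hvq.symm hvp h.rot h.hom n1 n2 n3 hs hr (Z v p) ?_
    intro u w hne
    by_cases c1 : (u = p ∧ w = v) ∨ (u = v ∧ w = p) ∨ (u = q ∧ w = v) ∨ (u = v ∧ w = q)
    · exfalso
      apply hne
      rcases c1 with ⟨rfl, rfl⟩ | ⟨rfl, rfl⟩ | ⟨rfl, rfl⟩ | ⟨rfl, rfl⟩
      · rw [dl_zero (u := u) (w := w) (by simp [hvq, hpq, hvp.symm]),
          dl_one hpq hvq.symm hvp (u := w) (w := u) (by simp), hs u w]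
        rw [zero_add, mul_one, e2]
      · rw [dl_zero (u := w) (w := u) (by simp [hvq, hpq, hvp.symm]),
          dl_one hpq hvq.symm hvp (u := u) (w := w) (by simp)]
        rw [add_zero, mul_one, e2]
      · rw [dl_zero (u := w) (w := u) (by simp [hvq, hpq.symm, hvp]),
          dl_one hpq hvq.symm hvp (u := u) (w := w) (by simp), hs u w, ← hz]
        rw [add_zero, mul_one, e2]
      · rw [dl_zero (u := u) (w := w) (by simp [hvq, hpq.symm, hvp]),
          dl_one hpq hvq.symm hvp (u := w) (w := u) (by simp), ← hz]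
        rw [zero_add, mul_one, e2]
    · simp only [not_or] at c1
      by_cases c2 : (u = p ∧ w = q) ∨ (u = q ∧ w = p)
      · rcases c2 with ⟨rfl, rfl⟩ | ⟨rfl, rfl⟩
        · exact Epq
        · exact h.sym _ _ Epq
      · simp only [not_or] at c2
        rw [dl_zero (u := u) (w := w) (by simp only [not_or]; exact ⟨c2.1, c1.2.2.1, c1.2.1⟩),
          dl_zero (u := w) (w := u) (by
            simp only [not_or]
            exact ⟨fun hh => c2.2 ⟨hh.2, hh.1⟩, fun hh => c1.2.2.2 ⟨hh.2, hh.1⟩,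
              fun hh => c1.1 ⟨hh.2, hh.1⟩⟩), add_zero, mul_zero, add_zero] at hne
        rcases hE _ _ hne with (h1 | h1 | h1) | h1 | h1
        · exact h1
        · exact absurd h1 c1.1
        · exact absurd h1 c1.2.1
        · exact absurd h1 c1.2.2.1
        · exact absurd h1 c1.2.2.2
  · -- con
    have mono : ∀ u, Relation.ReflTransGen E a u →
        Relation.ReflTransGen (addE (addE E p v) q v) a u := by
      intro u hu
      induction hu with
      | refl => exact Relation.ReflTransGen.refl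
      | tail _ hst ih => exact ih.tail (Or.inl (Or.inl hst))
    rintro u w ((h1 | ⟨h1, h2⟩ | ⟨h1, h2⟩) | ⟨h1, h2⟩ | ⟨h1, h2⟩)
    · exact mono _ (h.con _ _ h1)
    · rw [h1]; exact mono _ (h.con _ _ Epq)
    · rw [h1]
      exact (mono _ (h.con _ _ Epq)).tail (Or.inl (Or.inr (Or.inl ⟨rfl, rfl⟩)))
    · rw [h1]; exact mono _ (h.con _ _ (h.sym _ _ Epq))
    · rw [h1]
      exact (mono _ (h.con _ _ Epq)).tail (Or.inl (Or.inr (Or.inl ⟨rfl, rfl⟩)))

end Pool.Agent.SGE.H51
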