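import Pool.Agent.Helper51_SGE.Tool

/-!
# Squad SGE, row NTB: a new edge above a contour vertex
-/

open scoped BigOperators

noncomputable section

namespace Pool.Agent.SGE.H51

theorem ntb : NtbStmt := by
  intro V _ a b P Q p v q E F h hne
  classical
  have hne' : ¬ E q p := fun hx => hne (h.sym _ _ hx)
  have hbd := h.bd
  have e1 : b :: ((P ++ p :: v :: q :: Q) ++ [a]) = b :: (P ++ p :: v :: ((q :: Q) ++ [a])) := by
    simp
  rw [e1, tri_split, tri_left] at hbd
  obtain ⟨t1, fp, fv, t2⟩ := hbd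
  have e1' : v :: ((q :: Q) ++ [a]) = v :: q :: (Q ++ [a]) := by simp
  rw [e1', tri_left] at t2
  obtain ⟨fq, t3⟩ := t2
  replace fv : Fan E F p v q := fv
  have hnd := h.nd
  have hsplit := List.nodup_append.1 hnd
  have hn1 := List.nodup_cons.1 hsplit.2.1
  have hn2 := List.nodup_cons.1 hn1.2
  have hn3 := List.nodup_cons.1 hn2.2
  have hpv : p ≠ v := fun e => hn1.1 (by rw [e]; simp)
  have hpq : p ≠ q := fun e => hn1.1 (by rw [e]; simp)
  have hvq : v ≠ q := fun e => hn2.1 (by rw [e]; simp)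
  have Epv : E p v := (fan_ends fp).2.1
  have Evq : E v q := (fan_ends fv).2.1
  have n1 : ∀ t, ¬ F p v t := (fan_ends fp).2.2
  have n2 : ∀ t, ¬ F v q t := (fan_ends fv).2.2
  have n3 : ∀ t, ¬ F q p t := fun t ht => hne' (h.fe _ _ _ ht)
  have Eo : ∀ w, w ≠ p → w ≠ q → ∀ z, addE E p q w z ↔ E w z := by
    intro w h1 h2 z
    unfold addE
    simp [h1, h2]
  have Fo : ∀ w, w ≠ p → w ≠ v → w ≠ q → ∀ s z, addF F p v q w s z ↔ F w s z :=
    fun w h1 h2 h3 s z => addF_ne h1 h2 h3 s z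
  have nP : ∀ w ∈ P, w ≠ p ∧ w ≠ v ∧ w ≠ q := by
    intro w hw
    refine ⟨fun e => ?_, fun e => ?_, fun e => ?_⟩
    · exact hsplit.2.2 w hw p (by simp) e
    · exact hsplit.2.2 w hw v (by simp) e
    · exact hsplit.2.2 w hw q (by simp) e
  have nQ : ∀ w ∈ Q, w ≠ p ∧ w ≠ v ∧ w ≠ q := by
    intro w hw
    refine ⟨fun e => ?_, fun e => ?_, fun e => ?_⟩
    · exact hn1.1 (by rw [← e]; simp [hw])
    · exact hn2.1 (by rw [← e]; simp [hw])
    · exact hn3.1 (by rw [← e]; exact hw)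
  constructor
  · exact h.ab
  · -- nd
    refine List.Nodup.sublist ?_ hnd
    exact List.Sublist.append_left (List.Sublist.cons_cons _ (List.sublist_cons_self _ _)) _
  · have := h.hd
    cases P <;> simpa using this
  · have := h.ls
    have e : P ++ p :: v :: q :: Q = (P ++ [p, v]) ++ q :: Q := by simp
    have e' : P ++ p :: q :: Q = (P ++ [p]) ++ q :: Q := by simp
    rw [e, List.getLast?_append] at this
    rw [e', List.getLast?_append]
    simpa [List.getLast?_cons] using this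
  · -- sym
    rintro u w (h1 | ⟨h1, h2⟩ | ⟨h1, h2⟩)
    · exact Or.inl (h.sym _ _ h1)
    · exact Or.inr (Or.inr ⟨h2, h1⟩)
    · exact Or.inr (Or.inl ⟨h2, h1⟩)
  · -- irr
    rintro u (h1 | ⟨h1, h2⟩ | ⟨h1, h2⟩)
    · exact h.irr _ h1
    · exact hpq (h1.symm.trans h2)
    · exact hpq (h2.symm.trans h1)
  · -- rot
    rintro u w t (h1 | ⟨h1, h2, h3⟩ | ⟨h1, h2, h3⟩ | ⟨h1, h2, h3⟩)
    · exact Or.inl (h.rot _ _ _ h1)
    · exact Or.inr (Or.inr (Or.inl ⟨h2, h3, h1⟩))
    · exact Or.inr (Or.inr (Or.inr ⟨h2, h3, h1⟩))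
    · exact Or.inr (Or.inl ⟨h2, h3, h1⟩)
  · -- fn
    rintro u w t t' (h1 | ⟨h1, h2, h3⟩ | ⟨h1, h2, h3⟩ | ⟨h1, h2, h3⟩)
      (g1 | ⟨g1, g2, g3⟩ | ⟨g1, g2, g3⟩ | ⟨g1, g2, g3⟩)
    · exact h.fn _ _ _ _ h1 g1
    · subst g1; subst g2; exact absurd h1 (n1 _)
    · subst g1; subst g2; exact absurd h1 (n2 _)
    · subst g1; subst g2; exact absurd h1 (n3 _)
    · subst h1; subst h2; exact absurd g1 (n1 _)
    · exact h3.trans g3.symm
    · exact absurd (h1.symm.trans g1) hpv
    · exact absurd (h1.symm.trans g1) hpq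
    · subst h1; subst h2; exact absurd g1 (n2 _)
    · exact absurd (g1.symm.trans h1) hpv
    · exact h3.trans g3.symm
    · exact absurd (h1.symm.trans g1) hvq
    · subst h1; subst h2; exact absurd g1 (n3 _)
    · exact absurd (g1.symm.trans h1) hpq
    · exact absurd (g1.symm.trans h1) hvq
    · exact h3.trans g3.symm
  · -- fe
    rintro u w t (h1 | ⟨h1, h2, h3⟩ | ⟨h1, h2, h3⟩ | ⟨h1, h2, h3⟩)
    · exact Or.inl (h.fe _ _ _ h1)
    · subst h1; subst h2; exact Or.inl Epv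
    · subst h1; subst h2; exact Or.inl Evq
    · exact Or.inr (Or.inr ⟨h1, h2⟩)
  · -- bd
    have e2 : b :: ((P ++ p :: q :: Q) ++ [a]) = b :: (P ++ p :: q :: (Q ++ [a])) := by simp
    rw [e2, tri_split, tri_left]
    have hEf : E q (Q.headD a) := (fan_ends fq).2.1
    have hfp : Q.headD a ≠ p := fun e => hne' (by rw [← e]; exact hEf)
    refine ⟨tri_mono p P b ?_ t1, ?_, ?_, ?_⟩
    · intro x w y hw hf
      obtain ⟨w1, w2, w3⟩ := nP w hw
      exact fan_congr (Eo w w1 w3) (Fo w w1 w2 w3) hf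
    · -- the fan of p
      refine fan_snoc (fun s t hst => Or.inl hst) (Or.inr (Or.inl ⟨rfl, rfl, rfl⟩)) ?_ hne ?_ fp
      · intro z
        unfold addE
        simp [hpq]
      · rintro z (h1 | ⟨h1, h2, h3⟩ | ⟨h1, h2, h3⟩ | ⟨h1, h2, h3⟩)
        · exact hne (h.fe _ _ _ h1)
        · exact hvq h2.symm
        · exact hpv h1
        · exact hpq h1
    · -- the fan of q
      refine fan_cons (fun s t hst => Or.inl hst)
        (Or.inr (Or.inr (Or.inr ⟨rfl, rfl, rfl⟩))) ?_ hne' ?_ fq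
      · intro z
        unfold addE
        simp [hpq.symm]
      · rintro z (h1 | ⟨h1, h2, h3⟩ | ⟨h1, h2, h3⟩ | ⟨h1, h2, h3⟩)
        · exact (fan_ends fq).2.2 _ h1
        · exact hpq h1.symm
        · exact hvq h1.symm
        · exact hfp h2
    · refine tri_mono a Q q ?_ t3
      intro x w y hw hf
      obtain ⟨w1, w2, w3⟩ := nQ w hw
      exact fan_congr (Eo w w1 w3) (Fo w w1 w2 w3) hf
  · -- int
    intro z x hz hx
    have z1 : z ≠ p := fun e => hz (by rw [e]; simp)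
    have z2 : z ≠ q := fun e => hz (by rw [e]; simp)
    by_cases z3 : z = v
    · subst z3
      obtain ⟨l, h1, h2, h3, h4, h5, h6⟩ := fv
      have hx' : x ∈ l := (h5 x).1 ((Eo z z1 z2 x).1 hx)
      obtain ⟨m, m1, m2, m3⟩ := cyc_rot (R := addF F p z q z)
        (h3.imp (fun s t hst => Or.inl hst)) h4 h1 h2
        (Or.inr (Or.inr (Or.inl ⟨rfl, rfl, rfl⟩))) hx'
      exact ⟨m, m1, m2, fun y => by rw [Eo z z1 z2 y, h5 y, m3 y]⟩
    · have hzC : z ∉ P ++ p :: v :: q :: Q := by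
        intro hm
        apply hz
        simp only [List.mem_append, List.mem_cons] at hm ⊢
        tauto
      exact cyc_congr (Eo z z1 z2) (Fo z z1 z3 z2)
        (h.int z x hzC ((Eo z z1 z2 x).1 hx))
  · -- hom
    intro Z hs hE hr
    have e2 : ∀ c : ZMod 2, c + c = 0 := CharTwo.add_self_eq_zero
    refine hom_add hpv hvq hpq.symm h.rot h.hom n1 n2 n3 hs hr (Z p q) ?_
    intro u w hne0
    by_cases c1 : (u = p ∧ w = q) ∨ (u = q ∧ w = p)
    · exfalso
      apply hne0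
      rcases c1 with ⟨rfl, rfl⟩ | ⟨rfl, rfl⟩
      · rw [dl_zero (u := u) (w := w) (by simp [hpv, hpq, hvq.symm]),
          dl_one hpv hvq hpq.symm (u := w) (w := u) (by simp)]
        rw [zero_add, mul_one, e2]
      · rw [dl_zero (u := w) (w := u) (by simp [hpv, hpq, hvq.symm]),
          dl_one hpv hvq hpq.symm (u := u) (w := w) (by simp), hs u w]
        rw [add_zero, mul_one, e2]
    · simp only [not_or] at c1
      by_cases c2 : (u = p ∧ w = v) ∨ (u = v ∧ w = p) ∨ (u = v ∧ w = q) ∨ (u = q ∧ w = v)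
      · rcases c2 with ⟨rfl, rfl⟩ | ⟨rfl, rfl⟩ | ⟨rfl, rfl⟩ | ⟨rfl, rfl⟩
        · exact Epv
        · exact h.sym _ _ Epv
        · exact Evq
        · exact h.sym _ _ Evq
      · simp only [not_or] at c2
        rw [dl_zero (u := u) (w := w) (by simp only [not_or]; exact ⟨c2.1, c2.2.2.1, c1.2⟩),
          dl_zero (u := w) (w := u) (by
            simp only [not_or]
            exact ⟨fun hh => c2.2.1 ⟨hh.2, hh.1⟩, fun hh => c2.2.2.2 ⟨hh.2, hh.1⟩,
              fun hh => c1.1 ⟨hh.2, hh.1⟩⟩), add_zero, mul_zero, add_zero] at hne0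
        rcases hE _ _ hne0 with h1 | h1 | h1
        · exact h1
        · exact absurd h1 c1.1
        · exact absurd h1 c1.2
  · -- con
    have mono : ∀ u, Relation.ReflTransGen E a u →
        Relation.ReflTransGen (addE E p q) a u := by
      intro u hu
      induction hu with
      | refl => exact Relation.ReflTransGen.refl
      | tail _ hst ih => exact ih.tail (Or.inl hst)
    rintro u w (h1 | ⟨h1, h2⟩ | ⟨h1, h2⟩)
    · exact mono _ (h.con _ _ h1)
    · rw [h1]; exact mono _ (h.con _ _ Epv)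
    · rw [h1]; exact mono _ (h.con _ _ (h.sym _ _ Evq))

end Pool.Agent.SGE.H51
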