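import Pool.Agent.SGE.Stmts

/-!
# Squad SGE, rows NTA and NTB: common tools
-/

open scoped BigOperators

noncomputable section

namespace Pool.Agent.SGE.H51

variable {V : Type}

theorem tri_split (R : V → V → V → Prop) (p q : V) (X : List V) : ∀ (P : List V) (x : V),
    Tri R (x :: (P ++ p :: q :: X)) ↔
      Tri R (x :: (P ++ [p])) ∧ R (P.getLastD x) p q ∧ Tri R (p :: q :: X)
  | [], x => by simp [Tri]
  | [m], x => by simp [Tri, and_assoc]
  | m :: m' :: P', x => by
      have ih := tri_split R p q X (m' :: P') m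
      simp only [List.cons_append, Tri, List.getLastD_cons] at ih ⊢
      rw [ih, and_assoc]

theorem tri_left (R : V → V → V → Prop) (p q a : V) (Q : List V) :
    Tri R (p :: q :: (Q ++ [a])) ↔ R p q (Q.headD a) ∧ Tri R (q :: (Q ++ [a])) := by
  cases Q <;> simp [Tri]

theorem tri_mono {R R' : V → V → V → Prop} (z : V) : ∀ (M : List V) (x : V),
    (∀ x w y, w ∈ M → R x w y → R' x w y) → Tri R (x :: (M ++ [z])) → Tri R' (x :: (M ++ [z]))
  | [], x, _, _ => by simp [Tri]
  | [m], x, h, hT => by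
      simp only [List.cons_append, List.nil_append, Tri, and_true] at hT ⊢
      exact h _ _ _ (by simp) hT
  | m :: m' :: P', x, h, hT => by
      have ih := tri_mono (R := R) (R' := R') z (m' :: P') m
        (fun x w y hw => h x w y (List.mem_cons_of_mem _ hw))
      simp only [List.cons_append, Tri] at ih hT ⊢
      exact ⟨h _ _ _ (by simp) hT.1, ih hT.2⟩

theorem tri_mem {R : V → V → V → Prop} (z : V) : ∀ (M : List V) (x : V),
    Tri R (x :: (M ++ [z])) → ∀ w ∈ M, ∃ x y, R x w y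
  | [], x, _, w, hw => by simp at hw
  | [m], x, hT, w, hw => by
      simp only [List.cons_append, List.nil_append, Tri, and_true] at hT
      simp only [List.mem_singleton] at hw
      subst hw
      exact ⟨_, _, hT⟩
  | m :: m' :: P', x, hT, w, hw => by
      have ih := tri_mem (R := R) z (m' :: P') m
      simp only [List.cons_append, Tri] at ih hT
      rcases List.mem_cons.1 hw with rfl | hw
      · exact ⟨_, _, hT.1⟩
      · exact ih hT.2 w hw

/-- the edges at the ends of a fan -/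
theorem fan_ends {E : V → V → Prop} {F : V → V → V → Prop} {x w y : V} (h : Fan E F x w y) :
    E w x ∧ E w y ∧ ∀ z, ¬ F w y z := by
  obtain ⟨l, h1, h2, h3, h4, h5, h6⟩ := h
  refine ⟨(h5 x).2 (List.mem_of_mem_head? (by rw [h1]; rfl)),
    (h5 y).2 (List.mem_of_getLast? h2), h6⟩

theorem fan_congr {E E' : V → V → Prop} {F F' : V → V → V → Prop} {x w y : V}
    (hE : ∀ z, E' w z ↔ E w z) (hF : ∀ s z, F' w s z ↔ F w s z) (h : Fan E F x w y) :
    Fan E' F' x w y := by
  have e1 : E' w = E w := funext fun z => propext (hE z)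
  have e2 : F' w = F w := funext fun s => funext fun z => propext (hF s z)
  obtain ⟨l, h1, h2, h3, h4, h5, h6⟩ := h
  exact ⟨l, h1, h2, by rw [e2]; exact h3, h4, fun z => by rw [e1]; exact h5 z,
    fun z => by rw [e2]; exact h6 z⟩

theorem cyc_congr {E E' : V → V → Prop} {F F' : V → V → V → Prop} {z v : V}
    (hE : ∀ t, E' z t ↔ E z t) (hF : ∀ s t, F' z s t ↔ F z s t) (h : Cyc E F z v) :
    Cyc E' F' z v := by
  have e1 : E' z = E z := funext fun t => propext (hE t)
  have e2 : F' z = F z := funext fun s => funext fun t => propext (hF s t)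
  obtain ⟨l, h1, h2, h3⟩ := h
  exact ⟨l, by rw [e2]; exact h1, h2, fun t => by rw [e1]; exact h3 t⟩

/-- one more element at the end of a fan -/
theorem fan_snoc {E E' : V → V → Prop} {F F' : V → V → V → Prop} {x w y v : V}
    (hm : ∀ s t, F w s t → F' w s t) (hf : F' w y v) (hE : ∀ z, E' w z ↔ E w z ∨ z = v)
    (hv : ¬ E w v) (hn : ∀ z, ¬ F' w v z) (h : Fan E F x w y) : Fan E' F' x w v := by
  obtain ⟨l, h1, h2, h3, h4, h5, h6⟩ := h
  have hvl : v ∉ l := fun hc => hv ((h5 v).2 hc)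
  refine ⟨l ++ [v], ?_, ?_, ?_, ?_, ?_, hn⟩
  · rw [List.head?_append, h1]; rfl
  · simp
  · rw [List.isChain_append]
    refine ⟨h3.imp (fun s t => hm s t), List.isChain_singleton _, ?_⟩
    intro s hs t ht
    rw [h2] at hs
    simp only [Option.mem_def, Option.some.injEq, List.head?_cons] at hs ht
    subst hs; subst ht
    exact hf
  · rw [List.nodup_append]
    refine ⟨h4, List.nodup_singleton _, ?_⟩
    intro s hs t ht hst
    rw [List.mem_singleton] at ht
    subst ht; subst hst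
    exact hvl hs
  · intro z
    rw [hE z, h5 z]
    simp

/-- one more element at the beginning of a fan -/
theorem fan_cons {E E' : V → V → Prop} {F F' : V → V → V → Prop} {x w y v : V}
    (hm : ∀ s t, F w s t → F' w s t) (hf : F' w v x) (hE : ∀ z, E' w z ↔ E w z ∨ z = v)
    (hv : ¬ E w v) (hn : ∀ z, ¬ F' w y z) (h : Fan E F x w y) : Fan E' F' v w y := by
  obtain ⟨l, h1, h2, h3, h4, h5, h6⟩ := h
  have hvl : v ∉ l := fun hc => hv ((h5 v).2 hc)
  refine ⟨v :: l, rfl, ?_, ?_, ?_, ?_, hn⟩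
  · rw [List.getLast?_cons, h2]; rfl
  · rw [List.isChain_cons]
    refine ⟨?_, h3.imp (fun s t => hm s t)⟩
    intro s hs
    rw [h1] at hs
    simp only [Option.mem_def, Option.some.injEq] at hs
    subst hs
    exact hf
  · exact List.nodup_cons.2 ⟨hvl, h4⟩
  · intro z
    rw [hE z, h5 z]
    simp [or_comm]

/-- rotation of a closed chain -/
theorem cyc_rot {R : V → V → Prop} {l : List V} {h t : V} (hc : l.IsChain R) (hn : l.Nodup)
    (h0 : l.head? = some h) (h1 : l.getLast? = some t) (hR : R t h) {x : V} (hx : x ∈ l) :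
    ∃ m : List V, (x :: (m ++ [x])).IsChain R ∧ (x :: m).Nodup ∧ ∀ y, y ∈ x :: m ↔ y ∈ l := by
  obtain ⟨A, B, rfl⟩ := List.append_of_mem hx
  refine ⟨B ++ A, ?_, ?_, ?_⟩
  · have e : x :: (B ++ A ++ [x]) = (x :: B) ++ (A ++ [x]) := by simp
    rw [e, List.isChain_append]
    have hc2 : (A ++ [x]).IsChain R := by
      have : (A ++ [x]) ++ B = A ++ x :: B := by simp
      rw [← this] at hc
      exact (List.isChain_append.1 hc).1
    refine ⟨(List.isChain_append.1 hc).2.1, hc2, ?_⟩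
    intro s hs r hr
    have e1 : (A ++ x :: B).getLast? = (x :: B).getLast? := by
      rw [List.getLast?_append]
      simp [List.getLast?_cons]
    have e2 : (A ++ x :: B).head? = (A ++ [x]).head? := by
      cases A <;> simp
    rw [e1] at h1
    rw [e2] at h0
    rw [h1] at hs
    rw [h0] at hr
    simp only [Option.mem_def, Option.some.injEq] at hs hr
    subst hs; subst hr
    exact hR
  · have hp : (x :: (B ++ A)).Perm (A ++ x :: B) := by
      refine (List.Perm.trans ?_ List.perm_middle.symm)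
      exact List.Perm.cons _ List.perm_append_comm
    exact hp.nodup_iff.2 hn
  · intro y
    simp only [List.mem_cons, List.mem_append]
    tauto

/-! ## The triangle -/

/-- the directed boundary of the triangle `x y z` -/
def dl (x y z : V) (u w : V) : ZMod 2 :=
  open Classical in
  (if u = x ∧ w = y then 1 else 0) + (if u = y ∧ w = z then 1 else 0) +
    (if u = z ∧ w = x then 1 else 0)

theorem dl_row [Fintype V] (x y z u : V) : ∑ w, (dl x y z u w + dl x y z w u) = 0 := by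
  classical
  have key : ∀ s t : V, (∑ w, (if u = s ∧ w = t then (1 : ZMod 2) else 0)) =
      if u = s then 1 else 0 := by
    intro s t
    by_cases h : u = s
    · simp [h]
    · simp [h]
  have key2 : ∀ s t : V, (∑ w, (if w = s ∧ u = t then (1 : ZMod 2) else 0)) =
      if u = t then 1 else 0 := by
    intro s t
    by_cases h : u = t
    · simp [h]
    · simp [h]
  have e2 : ∀ c : ZMod 2, c + c = 0 := CharTwo.add_self_eq_zero
  rw [Finset.sum_add_distrib]
  unfold dl
  simp only [Finset.sum_add_distrib, key, key2]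
  generalize (if u = x then (1 : ZMod 2) else 0) = A
  generalize (if u = y then (1 : ZMod 2) else 0) = B
  generalize (if u = z then (1 : ZMod 2) else 0) = C
  have : A + B + C + (B + C + A) = (A + B + C) + (A + B + C) := by ring
  rw [this]
  exact e2 _

theorem dl_one {x y z : V} (hxy : x ≠ y) (hyz : y ≠ z) (hzx : z ≠ x) {u w : V}
    (h : (u = x ∧ w = y) ∨ (u = y ∧ w = z) ∨ (u = z ∧ w = x)) : dl x y z u w = 1 := by
  classical
  unfold dl
  rcases h with ⟨rfl, rfl⟩ | ⟨rfl, rfl⟩ | ⟨rfl, rfl⟩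
  · simp [hxy, hyz, hzx.symm]
  · simp [hyz, hzx, hxy.symm]
  · simp [hzx, hxy, hyz.symm]

theorem dl_zero {x y z : V} {u w : V}
    (h : ¬ ((u = x ∧ w = y) ∨ (u = y ∧ w = z) ∨ (u = z ∧ w = x))) : dl x y z u w = 0 := by
  classical
  unfold dl
  simp only [not_or] at h
  rw [if_neg h.1, if_neg h.2.1, if_neg h.2.2]
  simp

/-- The homology condition after adding the face `x y z`. -/
theorem hom_add [Fintype V] {E : V → V → Prop} {F : V → V → V → Prop} {x y z : V}
    (hxy : x ≠ y) (hyz : y ≠ z) (hzx : z ≠ x)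
    (rot : ∀ u v w, F u v w → F v w u)
    (hom : ∀ Z : V → V → ZMod 2, (∀ u v, Z u v = Z v u) → (∀ u v, Z u v ≠ 0 → E u v) →
      (∀ u, ∑ v, Z u v = 0) → ∃ A : V → V → ZMod 2, (∀ u v w, F u v w → A u v = A v w) ∧
        (∀ u v, (∀ w, ¬ F u v w) → A u v = 0) ∧ ∀ u v, Z u v = A u v + A v u)
    (n1 : ∀ t, ¬ F x y t) (n2 : ∀ t, ¬ F y z t) (n3 : ∀ t, ¬ F z x t)
    {Z : V → V → ZMod 2} (hs : ∀ u v, Z u v = Z v u) (hr : ∀ u, ∑ v, Z u v = 0) (ζ : ZMod 2)
    (hE : ∀ u w, Z u w + ζ * (dl x y z u w + dl x y z w u) ≠ 0 → E u w) :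
    ∃ A : V → V → ZMod 2, (∀ u v w, addF F x y z u v w → A u v = A v w) ∧
      (∀ u v, (∀ w, ¬ addF F x y z u v w) → A u v = 0) ∧ ∀ u v, Z u v = A u v + A v u := by
  classical
  have e2 : ∀ c : ZMod 2, c + c = 0 := CharTwo.add_self_eq_zero
  obtain ⟨A, a1, a2, a3⟩ := hom (fun u w => Z u w + ζ * (dl x y z u w + dl x y z w u))
    (fun u w => by
      show Z u w + ζ * (dl x y z u w + dl x y z w u) = Z w u + ζ * (dl x y z w u + dl x y z u w)
      rw [hs u w, add_comm (dl x y z u w)])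
    hE
    (fun u => by
      show ∑ w, (Z u w + ζ * (dl x y z u w + dl x y z w u)) = 0
      rw [Finset.sum_add_distrib, hr u, ← Finset.mul_sum, dl_row, mul_zero, add_zero])
  have nd : ∀ u w t, F u w t → ¬ ((u = x ∧ w = y) ∨ (u = y ∧ w = z) ∨ (u = z ∧ w = x)) := by
    rintro u w t hF (⟨rfl, rfl⟩ | ⟨rfl, rfl⟩ | ⟨rfl, rfl⟩)
    · exact n1 _ hF
    · exact n2 _ hF
    · exact n3 _ hF
  refine ⟨fun u w => A u w + ζ * dl x y z u w, ?_, ?_, ?_⟩
  · intro u w t hF
    show A u w + ζ * dl x y z u w = A w t + ζ * dl x y z w t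
    rcases hF with hF | ⟨rfl, rfl, rfl⟩ | ⟨rfl, rfl, rfl⟩ | ⟨rfl, rfl, rfl⟩
    · rw [dl_zero (nd _ _ _ hF), dl_zero (nd _ _ _ (rot _ _ _ hF)), a1 _ _ _ hF]
    · rw [a2 _ _ n1, a2 _ _ n2, dl_one hxy hyz hzx (Or.inl ⟨rfl, rfl⟩),
        dl_one hxy hyz hzx (Or.inr (Or.inl ⟨rfl, rfl⟩))]
    · rw [a2 _ _ n2, a2 _ _ n3, dl_one hxy hyz hzx (Or.inr (Or.inl ⟨rfl, rfl⟩)),
        dl_one hxy hyz hzx (Or.inr (Or.inr ⟨rfl, rfl⟩))]
    · rw [a2 _ _ n3, a2 _ _ n1, dl_one hxy hyz hzx (Or.inr (Or.inr ⟨rfl, rfl⟩)),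
        dl_one hxy hyz hzx (Or.inl ⟨rfl, rfl⟩)]
  · intro u w hn
    show A u w + ζ * dl x y z u w = 0
    have h1 : ∀ t, ¬ F u w t := fun t ht => hn t (Or.inl ht)
    have h2 : ¬ ((u = x ∧ w = y) ∨ (u = y ∧ w = z) ∨ (u = z ∧ w = x)) := by
      rintro (⟨rfl, rfl⟩ | ⟨rfl, rfl⟩ | ⟨rfl, rfl⟩)
      · exact hn z (Or.inr (Or.inl ⟨rfl, rfl, rfl⟩))
      · exact hn x (Or.inr (Or.inr (Or.inl ⟨rfl, rfl, rfl⟩)))
      · exact hn y (Or.inr (Or.inr (Or.inr ⟨rfl, rfl, rfl⟩)))
    rw [a2 _ _ h1, dl_zero h2]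
    simp
  · intro u w
    show Z u w = A u w + ζ * dl x y z u w + (A w u + ζ * dl x y z w u)
    have h3 := a3 u w
    have h4 : Z u w = (Z u w + ζ * (dl x y z u w + dl x y z w u)) +
        ζ * (dl x y z u w + dl x y z w u) := by
      rw [add_assoc, e2, add_zero]
    rw [h4, h3]
    ring

theorem addF_ne {F : V → V → V → Prop} {x y z w : V} (h1 : w ≠ x) (h2 : w ≠ y) (h3 : w ≠ z)
    (s t : V) : addF F x y z w s t ↔ F w s t := by
  unfold addF
  simp [h1, h2, h3]

end Pool.Agent.SGE.H51
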